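import Mathlib
import Pool.Agent.OddTwo.Main

set_option autoImplicit false

namespace Pool.Agent.Results.MP_f155e9_co.ChainPairs

open Finset

/-! ### Binomial coefficients -/

/-- Ratio comparison, proved by moving outwards from the centre. -/
theorem ratio (n k : ℕ) (hk : k ^ 2 ≤ n + 3) :
    ∀ b a : ℕ, a + b + k = n → a ≤ b + 1 →
      ((n + 1).choose (b + 1) : ℤ) * ((k : ℤ) - ((b : ℤ) + 1 - a)) ≤
        ((n + 1).choose a : ℤ) * ((k : ℤ) + ((b : ℤ) + 1 - a)) := by
  -- the two base cases
  have base0 : ∀ b a : ℕ, a = b + 1 →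
      ((n + 1).choose (b + 1) : ℤ) * ((k : ℤ) - ((b : ℤ) + 1 - a)) ≤
        ((n + 1).choose a : ℤ) * ((k : ℤ) + ((b : ℤ) + 1 - a)) := by
    intro b a h
    subst h
    push_cast
    simp
  have base1 : ∀ b a : ℕ, a + b + k = n → a = b →
      ((n + 1).choose (b + 1) : ℤ) * ((k : ℤ) - ((b : ℤ) + 1 - a)) ≤
        ((n + 1).choose a : ℤ) * ((k : ℤ) + ((b : ℤ) + 1 - a)) := by
    intro b a hn h
    subst h
    have h1 : ((n + 1).choose (a + 1) : ℤ) * ((a : ℤ) + 1)
        = ((n + 1).choose a : ℤ) * ((a : ℤ) + k + 1) := by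
      have h2 := Nat.choose_succ_right_eq (n + 1) a
      have h3 : n + 1 - a = a + k + 1 := by omega
      rw [h3] at h2
      exact_mod_cast h2
    have hq : (k : ℤ) ^ 2 ≤ 2 * a + k + 2 := by
      have h4 : k ^ 2 ≤ 2 * a + k + 2 := by
        rcases Nat.lt_or_ge (2 * a + k + 2) (k ^ 2) with h | h
        · exfalso
          have h5 : k ^ 2 = 2 * a + k + 3 := by omega
          have h6 : k * k = 2 * a + k + 3 := by rw [← sq]; exact h5
          have h7 : k * (k + 1) = 2 * (a + k) + 3 := by rw [mul_add, h6]; ring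
          have h8 : Even (k * (k + 1)) := Nat.even_mul_succ_self k
          rw [h7] at h8
          rcases h8 with ⟨c, hc⟩
          omega
        · exact h
      exact_mod_cast h4
    have hB : (0 : ℤ) ≤ ((n + 1).choose a : ℤ) := by positivity
    have ha : (0 : ℤ) < (a : ℤ) + 1 := by positivity
    have key : ((n + 1).choose (a + 1) : ℤ) * ((k : ℤ) - ((a : ℤ) + 1 - a)) * ((a : ℤ) + 1) ≤
        ((n + 1).choose a : ℤ) * ((k : ℤ) + ((a : ℤ) + 1 - a)) * ((a : ℤ) + 1) := by
      have e1 : ((n + 1).choose (a + 1) : ℤ) * ((k : ℤ) - ((a : ℤ) + 1 - a)) * ((a : ℤ) + 1)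
          = ((n + 1).choose a : ℤ) * (((a : ℤ) + k + 1) * ((k : ℤ) - 1)) := by
        calc ((n + 1).choose (a + 1) : ℤ) * ((k : ℤ) - ((a : ℤ) + 1 - a)) * ((a : ℤ) + 1)
            = (((n + 1).choose (a + 1) : ℤ) * ((a : ℤ) + 1)) * ((k : ℤ) - 1) := by ring
          _ = _ := by rw [h1]; ring
      have e2 : ((n + 1).choose a : ℤ) * ((k : ℤ) + ((a : ℤ) + 1 - a)) * ((a : ℤ) + 1)
          = ((n + 1).choose a : ℤ) * (((k : ℤ) + 1) * ((a : ℤ) + 1)) := by ring
      rw [e1, e2]
      apply mul_le_mul_of_nonneg_left _ hB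
      nlinarith
    exact le_of_mul_le_mul_right key ha
  intro b
  induction b with
  | zero =>
    intro a hn ha
    rcases Nat.lt_or_ge 0 a with h | h
    · exact base0 0 a (by omega)
    · exact base1 0 a hn (by omega)
  | succ b ih =>
    intro a hn ha
    rcases Nat.lt_or_ge b a with h | h
    · rcases Nat.lt_or_ge (b + 1) a with h' | h'
      · exact base0 (b + 1) a (by omega)
      · exact base1 (b + 1) a hn (by omega)
    · -- a ≤ b : use the pair (a+1, b)
      have IH := ih (a + 1) (by omega) (by omega)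
      push_cast at IH ⊢
      set A : ℤ := ((n + 1).choose (b + 1) : ℤ) with hA
      set B : ℤ := ((n + 1).choose (a + 1) : ℤ) with hB
      set A' : ℤ := ((n + 1).choose (b + 1 + 1) : ℤ) with hA'
      set B' : ℤ := ((n + 1).choose a : ℤ) with hB'
      have hA0 : 0 ≤ A := by positivity
      have hB0 : 0 ≤ B := by positivity
      have hA'0 : 0 ≤ A' := by positivity
      have hB'0 : 0 ≤ B' := by positivity
      have hnz : (n : ℤ) = a + b + k + 1 := by
        have : n = a + b + k + 1 := by omega
        exact_mod_cast this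
      have r1 : A' * ((b : ℤ) + 2) = A * ((a : ℤ) + 1 + k) := by
        have h2 := Nat.choose_succ_right_eq (n + 1) (b + 1)
        have h3 : n + 1 - (b + 1) = a + 1 + k := by omega
        rw [h3] at h2
        have h4 : ((n + 1).choose (b + 1 + 1) : ℤ) * ((b : ℤ) + 1 + 1)
            = ((n + 1).choose (b + 1) : ℤ) * ((a : ℤ) + 1 + k) := by exact_mod_cast h2
        rw [hA', hA, ← h4]; ring
      have r2 : B * ((a : ℤ) + 1) = B' * ((b : ℤ) + 2 + k) := by
        have h2 := Nat.choose_succ_right_eq (n + 1) a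
        have h3 : n + 1 - a = b + 2 + k := by omega
        rw [h3] at h2
        have h4 : ((n + 1).choose (a + 1) : ℤ) * ((a : ℤ) + 1)
            = ((n + 1).choose a : ℤ) * ((b : ℤ) + 2 + k) := by exact_mod_cast h2
        exact h4
      have hab : (a : ℤ) ≤ b := by exact_mod_cast h
      rcases le_or_gt ((k : ℤ) - ((b : ℤ) + 1 + 1 - a)) 0 with hneg | hpos
      · have h5 : A' * ((k : ℤ) - ((b : ℤ) + 1 + 1 - a)) ≤ 0 :=
          mul_nonpos_of_nonneg_of_nonpos hA'0 hneg
        have h6 : 0 ≤ B' * ((k : ℤ) + ((b : ℤ) + 1 + 1 - a)) := by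
          apply mul_nonneg hB'0
          have : (0 : ℤ) ≤ k := by positivity
          linarith
        linarith
      · -- polynomial inequality
        have hkz : (k : ℤ) ^ 2 ≤ n + 3 := by exact_mod_cast hk
        have hk0 : (0 : ℤ) ≤ k := by positivity
        have ha0 : (0 : ℤ) ≤ a := by positivity
        have hb0 : (0 : ℤ) ≤ b := by positivity
        have IH' : A * ((k : ℤ) - (b - a)) ≤ B * ((k : ℤ) + (b - a)) := by
          have e1 : (k : ℤ) - ((b : ℤ) + 1 - (a + 1)) = (k : ℤ) - (b - a) := by ring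
          have e2 : (k : ℤ) + ((b : ℤ) + 1 - (a + 1)) = (k : ℤ) + (b - a) := by ring
          rw [e1, e2] at IH
          exact IH
        -- P := coefficient comparison
        have poly : ((k : ℤ) + (b - a)) * ((k : ℤ) - (b - a) - 2) *
              (((a : ℤ) + 1 + k) * ((b : ℤ) + 2 + k)) ≤
            ((k : ℤ) - (b - a)) * ((k : ℤ) + (b - a) + 2) * (((a : ℤ) + 1) * ((b : ℤ) + 2)) := by
          have hid : ((k : ℤ) - (b - a)) * ((k : ℤ) + (b - a) + 2) * (((a : ℤ) + 1) * ((b : ℤ) + 2))
              - ((k : ℤ) + (b - a)) * ((k : ℤ) - (b - a) - 2) *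
              (((a : ℤ) + 1 + k) * ((b : ℤ) + 2 + k))
              = k * ((a : ℤ) + b + k + 2) *
                (((a : ℤ) + b + k + 3) - k ^ 2 + ((b : ℤ) - a + 1) ^ 2) := by ring
          have h7 : 0 ≤ ((a : ℤ) + b + k + 3) - k ^ 2 + ((b : ℤ) - a + 1) ^ 2 := by
            have h8 : (1 : ℤ) ≤ ((b : ℤ) - a + 1) ^ 2 := by nlinarith
            rw [hnz] at hkz
            linarith
          have h9 : 0 ≤ k * ((a : ℤ) + b + k + 2) *
                (((a : ℤ) + b + k + 3) - k ^ 2 + ((b : ℤ) - a + 1) ^ 2) := by positivity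
          linarith
        have c1 : 0 < (k : ℤ) - (b - a) := by linarith
        have c2 : 0 < ((b : ℤ) + 2) * ((b : ℤ) + 2 + k) := by positivity
        have c3 : 0 ≤ ((k : ℤ) - (b - a) - 2) * (((a : ℤ) + 1 + k) * ((b : ℤ) + 2 + k)) := by
          apply mul_nonneg
          · linarith
          · positivity
        have fin : (A' * ((k : ℤ) - ((b : ℤ) + 1 + 1 - a))) *
              ((((b : ℤ) + 2) * ((b : ℤ) + 2 + k)) * ((k : ℤ) - (b - a))) ≤
            (B' * ((k : ℤ) + ((b : ℤ) + 1 + 1 - a))) *
              ((((b : ℤ) + 2) * ((b : ℤ) + 2 + k)) * ((k : ℤ) - (b - a))) := by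
          calc (A' * ((k : ℤ) - ((b : ℤ) + 1 + 1 - a))) *
              ((((b : ℤ) + 2) * ((b : ℤ) + 2 + k)) * ((k : ℤ) - (b - a)))
              = (A' * ((b : ℤ) + 2)) * (((b : ℤ) + 2 + k) * ((k : ℤ) - (b - a) - 2)
                * ((k : ℤ) - (b - a))) := by ring
            _ = (A * ((k : ℤ) - (b - a))) *
                (((k : ℤ) - (b - a) - 2) * (((a : ℤ) + 1 + k) * ((b : ℤ) + 2 + k))) := by
                rw [r1]; ring
            _ ≤ (B * ((k : ℤ) + (b - a))) *
                (((k : ℤ) - (b - a) - 2) * (((a : ℤ) + 1 + k) * ((b : ℤ) + 2 + k))) :=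
                mul_le_mul_of_nonneg_right IH' c3
            _ = B * (((k : ℤ) + (b - a)) * ((k : ℤ) - (b - a) - 2) *
                (((a : ℤ) + 1 + k) * ((b : ℤ) + 2 + k))) := by ring
            _ ≤ B * (((k : ℤ) - (b - a)) * ((k : ℤ) + (b - a) + 2) *
                (((a : ℤ) + 1) * ((b : ℤ) + 2))) := mul_le_mul_of_nonneg_left poly hB0
            _ = (B * ((a : ℤ) + 1)) * (((k : ℤ) - (b - a)) * ((k : ℤ) + (b - a) + 2)
                * ((b : ℤ) + 2)) := by ring
            _ = (B' * ((k : ℤ) + ((b : ℤ) + 1 + 1 - a))) *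
              ((((b : ℤ) + 2) * ((b : ℤ) + 2 + k)) * ((k : ℤ) - (b - a))) := by
                rw [r2]; ring
        exact le_of_mul_le_mul_right fin (mul_pos c2 c1)

/-- Successive differences of binomial coefficients. -/
theorem diff (n b : ℕ) :
    ((n.choose (b + 1) : ℤ) - n.choose b) * ((n : ℤ) + 1)
      = ((n + 1).choose (b + 1) : ℤ) * ((n : ℤ) - 2 * b - 1) := by
  have h1 : ((n + 1).choose (b + 1) : ℤ) = n.choose b + n.choose (b + 1) := by
    exact_mod_cast Nat.choose_succ_succ n b
  have h2 : (n.choose (b + 1) : ℤ) * ((b : ℤ) + 1) = n.choose b * ((n : ℤ) - b) := by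
    rcases Nat.lt_or_ge n b with h | h
    · rw [Nat.choose_eq_zero_of_lt h, Nat.choose_eq_zero_of_lt (by omega : n < b + 1)]
      simp
    · have h3 := Nat.choose_succ_right_eq n b
      have h4 : ((n - b : ℕ) : ℤ) = (n : ℤ) - b := by push_cast [Nat.cast_sub h]; ring
      rw [← h4]
      exact_mod_cast h3
  rw [h1]
  linear_combination (2 : ℤ) * h2

/-- Moving two levels with fixed sum apart does not increase the sum of the binomials. -/
theorem step (n k : ℕ) (hk : k ^ 2 ≤ n + 3) (a b : ℕ) (hn : a + 1 + b + k = n)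
    (hab : a ≤ b) :
    n.choose a + n.choose (b + 1) ≤ n.choose (a + 1) + n.choose b := by
  have h1 := ratio n k hk b (a + 1) (by omega) (by omega)
  have h2 := diff n b
  have h3 := diff n a
  have hnz : (n : ℤ) = a + 1 + b + k := by exact_mod_cast hn.symm
  have e1 : (n : ℤ) - 2 * b - 1 = (k : ℤ) - ((b : ℤ) + 1 - ((a + 1 : ℕ) : ℤ)) := by
    rw [hnz]; push_cast; ring
  have e2 : (n : ℤ) - 2 * a - 1 = (k : ℤ) + ((b : ℤ) + 1 - ((a + 1 : ℕ) : ℤ)) := by
    rw [hnz]; push_cast; ring
  rw [e1] at h2
  rw [e2] at h3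
  have h4 : ((n.choose (b + 1) : ℤ) - n.choose b) * ((n : ℤ) + 1) ≤
      ((n.choose (a + 1) : ℤ) - n.choose a) * ((n : ℤ) + 1) := by
    rw [h2, h3]; exact h1
  have h5 : (n.choose (b + 1) : ℤ) - n.choose b ≤ (n.choose (a + 1) : ℤ) - n.choose a :=
    le_of_mul_le_mul_right h4 (by positivity)
  have h6 : (n.choose a : ℤ) + n.choose (b + 1) ≤ n.choose (a + 1) + n.choose b := by linarith
  exact_mod_cast h6

/-- Among pairs with sum `n - k` the central pair is best. -/
theorem pair_eq (n k : ℕ) (hk : k ^ 2 ≤ n + 3) :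
    ∀ b a : ℕ, a + b + k = n → a ≤ b + 1 →
      n.choose a + n.choose b ≤ n.choose ((n - k) / 2) + n.choose ((n - k + 1) / 2) := by
  intro b
  induction b with
  | zero =>
    intro a hn ha
    rcases Nat.lt_or_ge 0 a with h | h
    · have e1 : (n - k) / 2 = 0 := by omega
      have e2 : (n - k + 1) / 2 = a := by omega
      rw [e1, e2]; omega
    · have e0 : a = 0 := by omega
      have e1 : (n - k) / 2 = 0 := by omega
      have e2 : (n - k + 1) / 2 = 0 := by omega
      rw [e0, e1, e2]
  | succ b ih =>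
    intro a hn ha
    rcases Nat.lt_or_ge b a with h | h
    · rcases Nat.lt_or_ge (b + 1) a with h' | h'
      · have e1 : (n - k) / 2 = b + 1 := by omega
        have e2 : (n - k + 1) / 2 = a := by omega
        rw [e1, e2]; omega
      · have e0 : a = b + 1 := by omega
        have e1 : (n - k) / 2 = b + 1 := by omega
        have e2 : (n - k + 1) / 2 = b + 1 := by omega
        rw [e0, e1, e2]
    · have h1 := step n k hk a b (by omega) h
      have h2 := ih (a + 1) (by omega) (by omega)
      omega

theorem choose_mono_half (n a c : ℕ) (hac : a ≤ c) (hc : 2 * c ≤ n) :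
    n.choose a ≤ n.choose c := by
  induction c, hac using Nat.le_induction with
  | base => exact le_rfl
  | succ c h ih =>
    have h1 := ih (by omega)
    have h2 : n.choose c ≤ n.choose (c + 1) :=
      Nat.choose_le_succ_of_lt_half_left (by omega)
    omega

/-- Pairs with sum at most `n - k`. -/
theorem pair_le (n k : ℕ) (hk1 : 1 ≤ k) (hkn : k ≤ n) (hk : k ^ 2 ≤ n + 3)
    (a b : ℕ) (hab : a + b ≤ n - k) :
    n.choose a + n.choose b ≤ n.choose ((n - k) / 2) + n.choose ((n - k + 1) / 2) := by
  wlog hle : a ≤ b with H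
  · have := H n k hk1 hkn hk b a (by omega) (by omega)
    omega
  rcases Nat.lt_or_ge ((n - k) / 2) b with h | h
  · have h1 : n.choose a ≤ n.choose (n - k - b) := by
      apply choose_mono_half _ _ _ (by omega) (by omega)
    have h2 := pair_eq n k hk b (n - k - b) (by omega) (by omega)
    omega
  · have h1 : n.choose a ≤ n.choose ((n - k) / 2) :=
      choose_mono_half _ _ _ (by omega) (by omega)
    have h2 : n.choose b ≤ n.choose ((n - k + 1) / 2) :=
      choose_mono_half _ _ _ (by omega) (by omega)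
    omega

/-- Single binomials. -/
theorem single_le (n k : ℕ) (hk1 : 1 ≤ k) (hkn : k ≤ n) (hk : k ^ 2 ≤ n + 3) (a : ℕ) :
    n.choose a ≤ n.choose ((n - k) / 2) + n.choose ((n - k + 1) / 2) := by
  have h1 : n.choose a ≤ n.choose (n / 2) := Nat.choose_le_middle a n
  rcases Nat.lt_or_ge (n - k) (n / 2) with h | h
  · -- only n = 2, k = 2
    have h2 : n < 2 * k := by omega
    have h3 : k ≤ 3 := by
      by_contra h4
      have h5 : 4 ≤ k := by omega
      nlinarith
    have h6 : n = 2 ∧ k = 2 ∨ n = 1 ∧ k = 1 ∨ n = 4 ∧ k = 3 ∨ n = 5 ∧ k = 3 ∨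
        n = 3 ∧ k = 3 ∨ n = 3 ∧ k = 2 := by
      interval_cases k <;> omega
    rcases h6 with ⟨rfl, rfl⟩ | ⟨rfl, rfl⟩ | ⟨rfl, rfl⟩ | ⟨rfl, rfl⟩ | ⟨rfl, rfl⟩ | ⟨rfl, rfl⟩
    · have : Nat.choose 2 (2 / 2) = 2 := by decide
      have h7 : Nat.choose 2 ((2 - 2) / 2) = 1 := by decide
      have h8 : Nat.choose 2 ((2 - 2 + 1) / 2) = 1 := by decide
      omega
    · omega
    · omega
    · omega
    · omega
    · omega
  · have h2 := pair_le n k hk1 hkn hk 0 (n / 2) (by omega)
    omega

/-- Pairs with sum at least `n + k`. -/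
theorem pair_ge (n k : ℕ) (hk1 : 1 ≤ k) (hkn : k ≤ n) (hk : k ^ 2 ≤ n + 3)
    (a b : ℕ) (ha : a ≤ n) (hb : b ≤ n) (hab : n + k ≤ a + b) :
    n.choose a + n.choose b ≤ n.choose ((n - k) / 2) + n.choose ((n - k + 1) / 2) := by
  have h := pair_le n k hk1 hkn hk (n - a) (n - b) (by omega)
  rw [Nat.choose_symm ha, Nat.choose_symm hb] at h
  exact h

/-! ### Double counting over numberings -/

theorem count (n : ℕ) (A : Finset (Fin n)) :
    n.choose A.card * (Numbering.prefixed A).card = n.factorial := by
  rw [Numbering.card_prefixed, Fintype.card_fin, ← mul_assoc]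
  exact Nat.choose_mul_factorial_mul_factorial (by simpa using A.card_le_univ)

theorem count_compl (n : ℕ) (A : Finset (Fin n)) :
    n.choose A.card * (Numbering.prefixed Aᶜ).card = n.factorial := by
  have h := count n Aᶜ
  have h1 : A.card ≤ n := by simpa using A.card_le_univ
  rw [Finset.card_compl, Fintype.card_fin, Nat.choose_symm h1] at h
  exact h

/-- Weight of the prefix chain. -/
theorem sum_prefix_le (n : ℕ) (F : Finset (Finset (Fin n)))
    (hF : IsAntichain (· ⊆ ·) (F : Set (Finset (Fin n)))) (f : Numbering (Fin n)) :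
    (F.filter (fun A => f ∈ Numbering.prefixed A)).card ≤ 1 := by
  rw [Finset.card_le_one]
  intro A hA B hB
  simp only [Finset.mem_filter, Numbering.mem_prefixed] at hA hB
  by_contra hne
  rcases Nat.le_total A.card B.card with h | h
  · exact hF (by exact_mod_cast hA.1) (by exact_mod_cast hB.1) hne
      (hA.2.subset_of_card_le_card hB.2 h)
  · exact hF (by exact_mod_cast hB.1) (by exact_mod_cast hA.1) (Ne.symm hne)
      (hB.2.subset_of_card_le_card hA.2 h)

theorem sum_suffix_le (n : ℕ) (F : Finset (Finset (Fin n)))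
    (hF : IsAntichain (· ⊆ ·) (F : Set (Finset (Fin n)))) (f : Numbering (Fin n)) :
    (F.filter (fun A => f ∈ Numbering.prefixed Aᶜ)).card ≤ 1 := by
  rw [Finset.card_le_one]
  intro A hA B hB
  simp only [Finset.mem_filter, Numbering.mem_prefixed] at hA hB
  by_contra hne
  rcases Nat.le_total Aᶜ.card Bᶜ.card with h | h
  · have h1 := hA.2.subset_of_card_le_card hB.2 h
    exact hF (by exact_mod_cast hB.1) (by exact_mod_cast hA.1) (Ne.symm hne)
      (Finset.compl_subset_compl.1 h1)
  · have h1 := hB.2.subset_of_card_le_card hA.2 h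
    exact hF (by exact_mod_cast hA.1) (by exact_mod_cast hB.1) hne
      (Finset.compl_subset_compl.1 h1)

/-- The local inequality on a chain and its complementary chain. -/
theorem local_le (n k : ℕ) (hk1 : 1 ≤ k) (hkn : k ≤ n) (hk : k ^ 2 ≤ n + 3)
    (F G : Finset (Finset (Fin n)))
    (hF : IsAntichain (· ⊆ ·) (F : Set (Finset (Fin n))))
    (hG : IsAntichain (· ⊆ ·) (G : Set (Finset (Fin n))))
    (hd : ∀ A ∈ F, ∀ B ∈ G, (symmDiff A B).card ≤ n - k) (f : Numbering (Fin n)) :
    (∑ A ∈ F.filter (fun A => f ∈ Numbering.prefixed A), n.choose A.card) +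
      (∑ A ∈ G.filter (fun A => f ∈ Numbering.prefixed Aᶜ), n.choose A.card)
      ≤ n.choose ((n - k) / 2) + n.choose ((n - k + 1) / 2) := by
  have h1 := sum_prefix_le n F hF f
  have h2 := sum_suffix_le n G hG f
  rcases Finset.card_le_one_iff_subset_singleton.1 h1 with ⟨A, hA⟩
  rcases Finset.card_le_one_iff_subset_singleton.1 h2 with ⟨B, hB⟩
  rcases Finset.subset_singleton_iff.1 hA with hA' | hA'
  · rcases Finset.subset_singleton_iff.1 hB with hB' | hB'
    · rw [hA', hB']; simp
    · rw [hA', hB']
      simpa using single_le n k hk1 hkn hk B.card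
  · rcases Finset.subset_singleton_iff.1 hB with hB' | hB'
    · rw [hA', hB']
      simpa using single_le n k hk1 hkn hk A.card
    · rw [hA', hB']
      simp only [Finset.sum_singleton]
      have mA : A ∈ F.filter (fun A => f ∈ Numbering.prefixed A) := by rw [hA']; simp
      have mB : B ∈ G.filter (fun A => f ∈ Numbering.prefixed Aᶜ) := by rw [hB']; simp
      simp only [Finset.mem_filter, Numbering.mem_prefixed] at mA mB
      have hdist := hd A mA.1 B mB.1
      have cA : A.card ≤ n := by simpa using A.card_le_univ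
      have cB : B.card ≤ n := by simpa using B.card_le_univ
      rcases Nat.le_total A.card Bᶜ.card with h | h
      · have hsub := mA.2.subset_of_card_le_card mB.2 h
        have hdisj : Disjoint A B := by
          rw [Finset.disjoint_left]
          intro x hx hxB
          exact (Finset.mem_compl.1 (hsub hx)) hxB
        have hc : (symmDiff A B).card = A.card + B.card := by
          rw [hdisj.symmDiff_eq_sup]
          exact Finset.card_union_of_disjoint hdisj
        exact pair_le n k hk1 hkn hk _ _ (by omega)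
      · have hsub := mB.2.subset_of_card_le_card mA.2 h
        have hc : (symmDiff A B).card = (n - A.card) + (n - B.card) := by
          have e : symmDiff A B = symmDiff Aᶜ Bᶜ := by
            ext x
            simp only [Finset.mem_symmDiff, Finset.mem_compl]
            tauto
          have hdisj : Disjoint Aᶜ Bᶜ := by
            rw [Finset.disjoint_left]
            intro x hx hxB
            exact (Finset.mem_compl.1 hx) (hsub hxB)
          rw [e, hdisj.symmDiff_eq_sup]
          have := Finset.card_union_of_disjoint hdisj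
          rw [Finset.card_compl, Finset.card_compl, Fintype.card_fin] at this
          exact this
        exact pair_ge n k hk1 hkn hk _ _ cA cB (by omega)

theorem main_bound (n k : ℕ) (hk1 : 1 ≤ k) (hkn : k ≤ n) (hk : k ^ 2 ≤ n + 3)
    (F G : Finset (Finset (Fin n)))
    (hF : IsAntichain (· ⊆ ·) (F : Set (Finset (Fin n))))
    (hG : IsAntichain (· ⊆ ·) (G : Set (Finset (Fin n))))
    (hd : ∀ A ∈ F, ∀ B ∈ G, (symmDiff A B).card ≤ n - k) :
    F.card + G.card ≤ n.choose ((n - k) / 2) + n.choose ((n - k + 1) / 2) := by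
  classical
  have hsum : ∑ f : Numbering (Fin n),
      ((∑ A ∈ F.filter (fun A => f ∈ Numbering.prefixed A), n.choose A.card) +
      (∑ A ∈ G.filter (fun A => f ∈ Numbering.prefixed Aᶜ), n.choose A.card))
      = (F.card + G.card) * n.factorial := by
    rw [Finset.sum_add_distrib]
    have e1 : ∑ f : Numbering (Fin n),
        (∑ A ∈ F.filter (fun A => f ∈ Numbering.prefixed A), n.choose A.card)
        = F.card * n.factorial := by
      simp_rw [Finset.sum_filter]
      rw [Finset.sum_comm]
      have : ∀ A ∈ F, ∑ f : Numbering (Fin n),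
          (if f ∈ Numbering.prefixed A then n.choose A.card else 0) = n.factorial := by
        intro A _
        rw [← Finset.sum_filter]
        rw [Finset.sum_const, smul_eq_mul, mul_comm]
        have e : (Finset.univ.filter (fun f : Numbering (Fin n) => f ∈ Numbering.prefixed A))
            = Numbering.prefixed A := by ext f; simp
        rw [e]
        exact count n A
      rw [Finset.sum_congr rfl this, Finset.sum_const, smul_eq_mul]
    have e2 : ∑ f : Numbering (Fin n),
        (∑ A ∈ G.filter (fun A => f ∈ Numbering.prefixed Aᶜ), n.choose A.card)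
        = G.card * n.factorial := by
      simp_rw [Finset.sum_filter]
      rw [Finset.sum_comm]
      have : ∀ A ∈ G, ∑ f : Numbering (Fin n),
          (if f ∈ Numbering.prefixed Aᶜ then n.choose A.card else 0) = n.factorial := by
        intro A _
        rw [← Finset.sum_filter]
        rw [Finset.sum_const, smul_eq_mul, mul_comm]
        have e : (Finset.univ.filter (fun f : Numbering (Fin n) => f ∈ Numbering.prefixed Aᶜ))
            = Numbering.prefixed Aᶜ := by ext f; simp
        rw [e]
        exact count_compl n A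
      rw [Finset.sum_congr rfl this, Finset.sum_const, smul_eq_mul]
    rw [e1, e2]; ring
  have hle : ∑ f : Numbering (Fin n),
      ((∑ A ∈ F.filter (fun A => f ∈ Numbering.prefixed A), n.choose A.card) +
      (∑ A ∈ G.filter (fun A => f ∈ Numbering.prefixed Aᶜ), n.choose A.card))
      ≤ ∑ _f : Numbering (Fin n), (n.choose ((n - k) / 2) + n.choose ((n - k + 1) / 2)) :=
    Finset.sum_le_sum (fun f _ => local_le n k hk1 hkn hk F G hF hG hd f)
  rw [hsum, Finset.sum_const, Finset.card_univ, Fintype.card_numbering, Fintype.card_fin,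
    smul_eq_mul, mul_comm (n.factorial)] at hle
  exact le_of_mul_le_mul_right hle (Nat.factorial_pos n)

/-- **Antichains of large bounded diameter.** Let `1 ≤ k ≤ n` and `k ^ 2 ≤ n + 3`.

(1) If `n + k` is even, every antichain of subsets of an `n`-set whose pairwise symmetric
differences all have at most `n - k` elements has at most `binom(n, ceil((n+k)/2))` members
(the bound of the conjecture).

(2) For every parity, twice the number of members is at most
`binom(n, ceil((n+k)/2)) + binom(n, floor((n+k)/2))`.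

(3) The same bound holds for `|F| + |G|` when `F` and `G` are antichains such that
every member of `F` differs from every member of `G` in at most `n - k` elements.

(4) If `k = 2`, the bound of the conjecture holds for both parities of `n`.

(5) If `n = 2 s + 3`, every antichain such that, for any two members `A` and `B`, one of
`A \ B` and `B \ A` has at most `s` elements, has at most `binom(n, s)` members. -/
theorem result (n k : ℕ) (hk1 : 1 ≤ k) (hkn : k ≤ n) (hk : k ^ 2 ≤ n + 3) :
    (Even (n + k) → ∀ F : Finset (Finset (Fin n)),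
        IsAntichain (· ⊆ ·) (F : Set (Finset (Fin n))) →
        (∀ A ∈ F, ∀ B ∈ F, (symmDiff A B).card ≤ n - k) →
        F.card ≤ n.choose ((n + k + 1) / 2)) ∧
    (∀ F : Finset (Finset (Fin n)),
        IsAntichain (· ⊆ ·) (F : Set (Finset (Fin n))) →
        (∀ A ∈ F, ∀ B ∈ F, (symmDiff A B).card ≤ n - k) →
        2 * F.card ≤ n.choose ((n + k + 1) / 2) + n.choose ((n + k) / 2)) ∧
    (∀ F G : Finset (Finset (Fin n)),
        IsAntichain (· ⊆ ·) (F : Set (Finset (Fin n))) →
        IsAntichain (· ⊆ ·) (G : Set (Finset (Fin n))) →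
        (∀ A ∈ F, ∀ B ∈ G, (symmDiff A B).card ≤ n - k) →
        F.card + G.card ≤ n.choose ((n + k + 1) / 2) + n.choose ((n + k) / 2)) ∧
    (k = 2 → ∀ F : Finset (Finset (Fin n)),
        IsAntichain (· ⊆ ·) (F : Set (Finset (Fin n))) →
        (∀ A ∈ F, ∀ B ∈ F, (symmDiff A B).card ≤ n - k) →
        F.card ≤ n.choose ((n + k + 1) / 2)) ∧
    (∀ s : ℕ, n = 2 * s + 3 → ∀ F : Finset (Finset (Fin n)),
        IsAntichain (· ⊆ ·) (F : Set (Finset (Fin n))) →
        (∀ A ∈ F, ∀ B ∈ F, (A \ B).card ≤ s ∨ (B \ A).card ≤ s) →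
        F.card ≤ n.choose s) := by
  have e1 : n.choose ((n - k) / 2) = n.choose ((n + k + 1) / 2) := by
    have h1 : (n - k) / 2 = n - (n + k + 1) / 2 := by omega
    rw [h1]
    exact Nat.choose_symm (by omega)
  have e2 : n.choose ((n - k + 1) / 2) = n.choose ((n + k) / 2) := by
    have h1 : (n - k + 1) / 2 = n - (n + k) / 2 := by omega
    rw [h1]
    exact Nat.choose_symm (by omega)
  have cross : ∀ F G : Finset (Finset (Fin n)),
        IsAntichain (· ⊆ ·) (F : Set (Finset (Fin n))) →
        IsAntichain (· ⊆ ·) (G : Set (Finset (Fin n))) →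
        (∀ A ∈ F, ∀ B ∈ G, (symmDiff A B).card ≤ n - k) →
        F.card + G.card ≤ n.choose ((n + k + 1) / 2) + n.choose ((n + k) / 2) := by
    intro F G hF hG hd
    have h := main_bound n k hk1 hkn hk F G hF hG hd
    rw [e1, e2] at h
    exact h
  have even : Even (n + k) → ∀ F : Finset (Finset (Fin n)),
        IsAntichain (· ⊆ ·) (F : Set (Finset (Fin n))) →
        (∀ A ∈ F, ∀ B ∈ F, (symmDiff A B).card ≤ n - k) →
        F.card ≤ n.choose ((n + k + 1) / 2) := by
    intro hev F hF hd
    have h := cross F F hF hF hd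
    rcases hev with ⟨c, hc⟩
    have h2 : (n + k) / 2 = (n + k + 1) / 2 := by omega
    rw [h2] at h
    omega
  refine ⟨even, ?_, cross, ?_, ?_⟩
  · intro F hF hd
    have h := cross F F hF hF hd
    omega
  · intro h2 F hF hd
    rcases Nat.even_or_odd n with hn | hn
    · refine even ?_ F hF hd
      rw [h2]
      exact hn.add even_two
    · rw [h2] at hd ⊢
      exact OddTwo.odd_two hn (by omega) F hF hd
  · intro s hn F hF hM
    exact OddTwo.bound hn hF hM

end Pool.Agent.Results.MP_f155e9_co.ChainPairs
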