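import Pool.Agent.DiamEven.Main
import Pool.Agent.DiamEven.Asym
import Pool.Agent.DiamSqrt.Final

set_option autoImplicit false

/-! Antichains of bounded diameter: the case `n + k` even, `3k ≥ n + 2` or `k² ≥ 20 n log n`, and
bounds sharp up to a factor `1 + ε` for `k` large compared with `√n`. -/

namespace Pool.Agent.Results.MP_f155e9_co.LinearEven

open Finset DiamEven

variable {n : ℕ}

lemma card_symmDiff' (A B : Finset (Fin n)) :
    (symmDiff A B).card = (A \ B).card + (B \ A).card := by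
  rw [symmDiff_def, sup_eq_union, card_union_of_disjoint]
  exact disjoint_sdiff_sdiff

lemma vpair_of_diam {d k : ℕ} (hn : n = d + k) (F G : Finset (Finset (Fin n)))
    (hF : IsAntichain (· ⊆ ·) (F : Set (Finset (Fin n))))
    (hG : IsAntichain (· ⊆ ·) (G : Set (Finset (Fin n))))
    (hd : ∀ A ∈ F, ∀ B ∈ G, (symmDiff A B).card ≤ d) :
    VPair k (univ : Finset (Fin n)) F (G.image compl) := by
  refine ⟨hF, ?_, fun A _ => subset_univ A, fun A _ => subset_univ A, ?_⟩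
  · intro X hX Y hY hne hsub
    simp only [coe_image, Set.mem_image, mem_coe] at hX hY
    obtain ⟨A, hA, rfl⟩ := hX
    obtain ⟨B, hB, rfl⟩ := hY
    have hne' : B ≠ A := fun h => hne (by rw [h])
    exact hG hB hA hne' (compl_subset_compl.1 hsub)
  · intro A hA X hX
    rw [mem_image] at hX
    obtain ⟨B, hB, rfl⟩ := hX
    have h1 := hd A hA B hB
    rw [card_symmDiff'] at h1
    have e1 : A \ Bᶜ = A ∩ B := by ext x; simp
    have e2 : Bᶜ \ A = (A ∪ B)ᶜ := by ext x; simp [and_comm]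
    rw [e1, e2, card_compl, Fintype.card_fin]
    have h3 : (A \ B).card + (A ∩ B).card = A.card := card_sdiff_add_card_inter A B
    have h4 : (B \ A).card + (B ∩ A).card = B.card := card_sdiff_add_card_inter B A
    have h5 := card_union_add_card_inter A B
    rw [inter_comm B A] at h4
    have h6 : (A ∪ B).card ≤ n := by simpa using card_le_univ (A ∪ B)
    omega

lemma card_image_compl (G : Finset (Finset (Fin n))) : (G.image compl).card = G.card :=
  card_image_of_injective _ compl_injective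

/-- cross version -/
theorem cross (n a b : ℕ) (h1 : 2 * a + b < n) (h2 : a + 2 * b < n)
    (F G : Finset (Finset (Fin n)))
    (hF : IsAntichain (· ⊆ ·) (F : Set (Finset (Fin n))))
    (hG : IsAntichain (· ⊆ ·) (G : Set (Finset (Fin n))))
    (hd : ∀ A ∈ F, ∀ B ∈ G, (symmDiff A B).card ≤ a + b)
    (hc : n.choose a ≤ F.card) : G.card ≤ n.choose b := by
  obtain ⟨k, hk⟩ : ∃ k, n = (a + b) + k := ⟨n - (a + b), by omega⟩
  have hV := vpair_of_diam hk F G hF hG hd
  have hall := all_D (α := Fin n) (c := k - 1) (k := k) (by omega) (a + b)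
  have := hall.2 a b rfl (by omega) (by omega) univ F (G.image compl)
    (by rw [card_univ, Fintype.card_fin]; exact hk) hV
    (by rw [card_univ, Fintype.card_fin]; exact hc)
  rwa [card_image_compl, card_univ, Fintype.card_fin] at this

theorem even_case (n k : ℕ) (hkn : k ≤ n) (he : Even (n + k))
    (h3 : n + 2 ≤ 3 * k) (F : Finset (Finset (Fin n)))
    (hF : IsAntichain (· ⊆ ·) (F : Set (Finset (Fin n))))
    (hd : ∀ A ∈ F, ∀ B ∈ F, (symmDiff A B).card ≤ n - k) :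
    F.card ≤ n.choose ((n + k) / 2) := by
  obtain ⟨t, ht⟩ := he
  obtain ⟨s, hs⟩ : ∃ s, n = 2 * s + k := ⟨(n - k) / 2, by omega⟩
  have h4 : (n + k) / 2 = n - s := by omega
  have h5 : n.choose ((n + k) / 2) = n.choose s := by
    rw [h4]; exact Nat.choose_symm (by omega)
  rw [h5]
  rcases le_or_gt F.card (n.choose s) with h | h
  · exact h
  · exact cross n s s (by omega) (by omega) F F hF hF
      (fun A hA B hB => (hd A hA B hB).trans (by omega)) h.le

theorem even_all (n k : ℕ) (hk1 : 1 ≤ k) (hkn : k ≤ n) (he : Even (n + k))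
    (h : n + 2 ≤ 3 * k ∨ 20 * (n : ℝ) * Real.log n ≤ (k : ℝ) ^ 2) (F : Finset (Finset (Fin n)))
    (hF : IsAntichain (· ⊆ ·) (F : Set (Finset (Fin n))))
    (hd : ∀ A ∈ F, ∀ B ∈ F, (symmDiff A B).card ≤ n - k) :
    F.card ≤ n.choose ((n + k) / 2) := by
  rcases Nat.lt_or_ge (3 * k) (n + 2) with h3 | h3
  · rcases h with h | h
    · omega
    · exact DiamSqrt.main n k hk1 hkn he h h3 F hF hd
  · exact even_case n k hkn he h3 F hF hd

theorem all_asym (ε : ℝ) (hε : 0 < ε) : ∃ C : ℝ, 0 < C ∧ ∀ n k : ℕ, 1 ≤ k → k ≤ n →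
    C * n ≤ (k : ℝ) ^ 2 → (Even (n + k) ∨ C * k ≤ n) → ∀ F : Finset (Finset (Fin n)),
      IsAntichain (· ⊆ ·) (F : Set (Finset (Fin n))) →
      (∀ A ∈ F, ∀ B ∈ F, (symmDiff A B).card ≤ n - k) →
      (F.card : ℝ) ≤ (1 + ε) * n.choose ((n + k + 1) / 2) := by
  obtain ⟨C₁, hC₁, h₁⟩ := asym ε hε
  obtain ⟨C₂, hC₂, h₂⟩ := asym_mid ε hε C₁ hC₁
  refine ⟨max C₁ C₂, lt_max_of_lt_left hC₁, ?_⟩
  intro n k hk1 hkn hC hor F hF hd
  have hn0 : (0 : ℝ) ≤ n := Nat.cast_nonneg n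
  have hk0 : (0 : ℝ) ≤ k := Nat.cast_nonneg k
  have hm1 : C₁ * n ≤ (k : ℝ) ^ 2 :=
    (mul_le_mul_of_nonneg_right (le_max_left C₁ C₂) hn0).trans hC
  have hm2 : C₂ * n ≤ (k : ℝ) ^ 2 :=
    (mul_le_mul_of_nonneg_right (le_max_right C₁ C₂) hn0).trans hC
  rcases hor with he | hor
  · have h4 : (n + k + 1) / 2 = (n + k) / 2 := by
      obtain ⟨t, ht⟩ := he
      omega
    rw [h4]
    rcases le_or_gt (n + 2) (3 * k) with h | h
    · have h3 := even_case n k hkn he h F hF hd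
      have h4 : (F.card : ℝ) ≤ n.choose ((n + k) / 2) := by exact_mod_cast h3
      have h5 : (0 : ℝ) ≤ n.choose ((n + k) / 2) := Nat.cast_nonneg _
      nlinarith
    · rcases le_or_gt (C₁ * k) (n : ℝ) with h' | h'
      · have h3 := h₁ n k hk1 hkn hm1 h' F hF hd
        rwa [h4] at h3
      · exact h₂ n k hk1 hkn he h hm2 h' F hF hd
  · exact h₁ n k hk1 hkn hm1
      ((mul_le_mul_of_nonneg_right (le_max_left C₁ C₂) hk0).trans hor) F hF hd

/-- (1) Let `1 ≤ k ≤ n`, `n + k` even, `3k ≥ n + 2` or `k² ≥ 20 n log n`. Every antichain of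
subsets of an `n`-set of diameter at most `n - k` has at most `C(n, (n+k)/2)` members.

(2) Cross version with all corners: if `2a + b < n`, `a + 2b < n`, `F` and `G` are antichains with
`|A Δ B| ≤ a + b` for all `A ∈ F`, `B ∈ G`, and `|F| ≥ C(n,a)`, then `|G| ≤ C(n,b)`.

(3) For each `ε > 0` there is `C` such that an antichain of diameter at most `n - k` has at most
`(1 + ε) C(n, ⌈(n+k)/2⌉)` members whenever `k² ≥ C n` and `n + k` is even or `n ≥ C k`.

(4) The explicit bound behind this, for all `n`, `k`: if an antichain of diameter at most `n - k`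
has at least `C(n,a) + t (C(n,a+1) - C(n,a))` members, where `2a + 1 ≤ n`, `t ∈ [0,1]`, then
`k 2^n ≤ 2 ∑_j C(n,j) |j - (a + t)|`. -/
theorem result :
    (∀ n k : ℕ, 1 ≤ k → k ≤ n → Even (n + k) →
      (n + 2 ≤ 3 * k ∨ 20 * (n : ℝ) * Real.log n ≤ (k : ℝ) ^ 2) →
      ∀ F : Finset (Finset (Fin n)), IsAntichain (· ⊆ ·) (F : Set (Finset (Fin n))) →
        (∀ A ∈ F, ∀ B ∈ F, (symmDiff A B).card ≤ n - k) →
          F.card ≤ n.choose ((n + k) / 2)) ∧
    (∀ n a b : ℕ, 2 * a + b < n → a + 2 * b < n →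
      ∀ F G : Finset (Finset (Fin n)), IsAntichain (· ⊆ ·) (F : Set (Finset (Fin n))) →
        IsAntichain (· ⊆ ·) (G : Set (Finset (Fin n))) →
        (∀ A ∈ F, ∀ B ∈ G, (symmDiff A B).card ≤ a + b) →
          n.choose a ≤ F.card → G.card ≤ n.choose b) ∧
    (∀ ε : ℝ, 0 < ε → ∃ C : ℝ, 0 < C ∧ ∀ n k : ℕ, 1 ≤ k → k ≤ n →
      C * n ≤ (k : ℝ) ^ 2 → (Even (n + k) ∨ C * k ≤ n) →
      ∀ F : Finset (Finset (Fin n)), IsAntichain (· ⊆ ·) (F : Set (Finset (Fin n))) →
        (∀ A ∈ F, ∀ B ∈ F, (symmDiff A B).card ≤ n - k) →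
          (F.card : ℝ) ≤ (1 + ε) * n.choose ((n + k + 1) / 2)) ∧
    (∀ (n k a : ℕ) (t : ℝ), k ≤ n → 0 ≤ t → t ≤ 1 → 2 * a + 1 ≤ n →
      ∀ F : Finset (Finset (Fin n)), IsAntichain (· ⊆ ·) (F : Set (Finset (Fin n))) →
        (∀ A ∈ F, ∀ B ∈ F, (symmDiff A B).card ≤ n - k) →
        (n.choose a : ℝ) + t * ((n.choose (a + 1) : ℝ) - n.choose a) ≤ F.card →
          (k : ℝ) * 2 ^ n ≤
            2 * ∑ j ∈ range (n + 1), (n.choose j : ℝ) * |(j : ℝ) - ((a : ℝ) + t)|) :=
  ⟨fun n k hk1 hkn he h F hF hd => even_all n k hk1 hkn he h F hF hd,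
   fun n a b h1 h2 F G hF hG hd hc => cross n a b h1 h2 F G hF hG hd hc,
   fun ε hε => all_asym ε hε,
   fun n k a t hk ht0 ht1 ha F hF hd h1 => diam_iid n k a hk t ht0 ht1 ha F hF hd h1⟩

end Pool.Agent.Results.MP_f155e9_co.LinearEven
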